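import Pool.Agent.helper67.DL.SpecG
import Mathlib.Geometry.Manifold.Complex

/-!
# Project dl, module HC: holomorphic functions on a compact connected surface are constant
-/

namespace Pool.Agent.DL

open Matrix Complex
open scoped ComplexOrder Manifold ContDiff
open Filter Topology

theorem HC_diffAt {X : Type} [TopologicalSpace X] [ChartedSpace ℂ X] {f : X → ℂ}
    (hf : HoloOn f Set.univ) (x : X) :
    DifferentiableAt ℂ (fun z => f ((chartAt ℂ x).symm z)) (chartAt ℂ x x) := by
  have h := hf (chartAt ℂ x) (chart_mem_atlas ℂ x)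
  rw [Set.preimage_univ, Set.inter_univ] at h
  exact h.differentiableAt ((chartAt ℂ x).open_target.mem_nhds (mem_chart_target ℂ x))

theorem HC_cont {X : Type} [TopologicalSpace X] [ChartedSpace ℂ X] {f : X → ℂ}
    (hf : HoloOn f Set.univ) (x : X) : ContinuousAt f x := by
  have h1 := (HC_diffAt hf x).continuousAt
  have h2 : ContinuousAt (chartAt ℂ x) x :=
    (chartAt ℂ x).continuousAt (mem_chart_source ℂ x)
  have h3 : ContinuousAt (fun y => f ((chartAt ℂ x).symm (chartAt ℂ x y))) x :=
    ContinuousAt.comp (g := fun z => f ((chartAt ℂ x).symm z)) h1 h2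
  refine h3.congr ?_
  filter_upwards [(chartAt ℂ x).open_source.mem_nhds (mem_chart_source ℂ x)] with y hy
  rw [(chartAt ℂ x).left_inv hy]

theorem HC_mdiff {X : Type} [TopologicalSpace X] [ChartedSpace ℂ X] {f : X → ℂ}
    (hf : HoloOn f Set.univ) : MDifferentiable 𝓘(ℂ) 𝓘(ℂ) f := by
  intro x
  rw [mdifferentiableAt_iff]
  refine ⟨HC_cont hf x, ?_⟩
  simp only [mfld_simps]
  exact (HC_diffAt hf x).differentiableWithinAt

theorem HC : HC_stmt := by
  intro X _ _ hX f hf x y
  obtain ⟨h1, h2, h3, h4⟩ := hX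
  haveI : IsManifold 𝓘(ℂ) 1 X := IsManifold.of_le (n := ω) (by exact le_top)
  exact MDifferentiable.apply_eq_of_compactSpace (HC_mdiff hf) x y

end Pool.Agent.DL
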