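import Pool.Agent.helper67.DL.SpecL

/-!
# Project dl, module RA: radial functions; `log ‖f‖` is harmonic
-/

namespace Pool.Agent.DL

open Matrix Complex
open scoped ComplexOrder
open Filter Topology

theorem RA_it2 {F F1 : ℝ → ℝ} {a s : ℝ} (h1 : ∀ᶠ t in 𝓝 s, HasDerivAt F (F1 t) t)
    (h2 : HasDerivAt F1 a s) : iteratedDeriv 2 F s = a := by
  rw [iteratedDeriv_succ, iteratedDeriv_one]
  have h3 : deriv F =ᶠ[𝓝 s] F1 := h1.mono fun t ht => ht.deriv
  rw [h3.deriv_eq, h2.deriv]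

theorem RA_sqrt {p q t : ℝ} (h : 0 < (p + t) ^ 2 + q ^ 2) :
    HasDerivAt (fun t : ℝ => Real.sqrt ((p + t) ^ 2 + q ^ 2))
      ((p + t) / Real.sqrt ((p + t) ^ 2 + q ^ 2)) t := by
  have h1 : HasDerivAt (fun t : ℝ => (p + t) ^ 2 + q ^ 2) (2 * (p + t)) t := by
    have h2 : HasDerivAt (fun t : ℝ => p + t) 1 t := by
      simpa using (hasDerivAt_id t).const_add p
    have h3 := (h2.pow 2).add_const (q ^ 2)
    simpa using h3
  have h4 := h1.sqrt h.ne'
  convert h4 using 1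
  have : Real.sqrt ((p + t) ^ 2 + q ^ 2) ≠ 0 := (Real.sqrt_pos.2 h).ne'
  field_simp

theorem RA_rad (g : ℝ → ℝ) (p q : ℝ) (h : 0 < p ^ 2 + q ^ 2)
    (hg : ContDiffAt ℝ 2 g (Real.sqrt (p ^ 2 + q ^ 2))) :
    iteratedDeriv 2 (fun t : ℝ => g (Real.sqrt ((p + t) ^ 2 + q ^ 2))) 0 =
      iteratedDeriv 2 g (Real.sqrt (p ^ 2 + q ^ 2)) * (p ^ 2 / (p ^ 2 + q ^ 2)) +
      deriv g (Real.sqrt (p ^ 2 + q ^ 2)) / Real.sqrt (p ^ 2 + q ^ 2) * (q ^ 2 / (p ^ 2 + q ^ 2)) := by
  set r0 := Real.sqrt (p ^ 2 + q ^ 2) with hr0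
  have hr0p : 0 < r0 := Real.sqrt_pos.2 h
  have hsq : r0 ^ 2 = p ^ 2 + q ^ 2 := Real.sq_sqrt h.le
  have hR0 : Real.sqrt ((p + 0) ^ 2 + q ^ 2) = r0 := by rw [add_zero]
  -- `g` near `r0`
  have hg1 : ∀ᶠ s in 𝓝 r0, HasDerivAt g (deriv g s) s := by
    have h1 : ∀ᶠ s in 𝓝 r0, ContDiffAt ℝ 2 g s := hg.eventually (by simp)
    exact h1.mono fun s hs => (hs.differentiableAt (by norm_num)).hasDerivAt
  have hg2 : HasDerivAt (deriv g) (iteratedDeriv 2 g r0) r0 := by
    have h1 : ContDiffAt ℝ 1 (deriv g) r0 := by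
      have h2 : ContDiffAt ℝ 1 (fderiv ℝ g) r0 := hg.fderiv_right (m := 1) (by norm_num)
      have h3 : ContDiffAt ℝ 1 (fun s => fderiv ℝ g s 1) r0 := h2.clm_apply contDiffAt_const
      have h4 : (fun s => fderiv ℝ g s 1) = deriv g := by
        funext s
        exact fderiv_apply_one_eq_deriv
      rwa [h4] at h3
    rw [iteratedDeriv_succ, iteratedDeriv_one]
    exact (h1.differentiableAt (by norm_num)).hasDerivAt
  have hcont : ContinuousAt (fun t : ℝ => Real.sqrt ((p + t) ^ 2 + q ^ 2)) 0 := by fun_prop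
  have hpos : ∀ᶠ t : ℝ in 𝓝 0, 0 < (p + t) ^ 2 + q ^ 2 := by
    have hc : ContinuousAt (fun t : ℝ => (p + t) ^ 2 + q ^ 2) 0 := by fun_prop
    have := hc.eventually (lt_mem_nhds (show (0 : ℝ) < (p + 0) ^ 2 + q ^ 2 by rw [add_zero]; exact h))
    exact this
  refine RA_it2 (F1 := fun t => deriv g (Real.sqrt ((p + t) ^ 2 + q ^ 2)) *
    ((p + t) / Real.sqrt ((p + t) ^ 2 + q ^ 2))) ?_ ?_
  · have h1 : ∀ᶠ t : ℝ in 𝓝 0, HasDerivAt g (deriv g (Real.sqrt ((p + t) ^ 2 + q ^ 2)))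
        (Real.sqrt ((p + t) ^ 2 + q ^ 2)) := by
      refine hcont.tendsto.eventually (p := fun s => HasDerivAt g (deriv g s) s) ?_
      change ∀ᶠ s in 𝓝 (Real.sqrt ((p + 0) ^ 2 + q ^ 2)), HasDerivAt g (deriv g s) s
      rw [hR0]
      exact hg1
    filter_upwards [h1, hpos] with t ht htp
    exact ht.comp t (RA_sqrt htp)
  · have e0 : 0 < (p + 0) ^ 2 + q ^ 2 := by rw [add_zero]; exact h
    have h1 := RA_sqrt e0
    have h2 : HasDerivAt (fun t : ℝ => deriv g (Real.sqrt ((p + t) ^ 2 + q ^ 2)))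
        (iteratedDeriv 2 g r0 * ((p + 0) / Real.sqrt ((p + 0) ^ 2 + q ^ 2))) 0 := by
      have h3 : HasDerivAt (deriv g) (iteratedDeriv 2 g r0) (Real.sqrt ((p + 0) ^ 2 + q ^ 2)) := by
        rw [hR0]; exact hg2
      exact h3.comp 0 h1
    have h4 : HasDerivAt (fun t : ℝ => p + t) 1 0 := by
      simpa using (hasDerivAt_id (0 : ℝ)).const_add p
    have h5 := h4.fun_div h1 (by rw [hR0]; exact hr0p.ne')
    have h6 := h2.fun_mul h5
    refine h6.congr_deriv ?_
    simp only [add_zero]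
    rw [← hr0, ← hsq]
    have hq : q ^ 2 = r0 ^ 2 - p ^ 2 := by rw [hsq]; ring
    rw [hq]
    field_simp

theorem RA_norm_re (a : ℂ) (t : ℝ) : ‖a + t‖ = Real.sqrt ((a.re + t) ^ 2 + a.im ^ 2) := by
  rw [Complex.norm_def, Complex.normSq_apply]
  congr 1
  simp
  ring

theorem RA_norm_im (a : ℂ) (t : ℝ) : ‖a + t * I‖ = Real.sqrt ((a.im + t) ^ 2 + a.re ^ 2) := by
  rw [Complex.norm_def, Complex.normSq_apply]
  congr 1
  simp
  ring

theorem RA_harm (h : ℂ → ℂ) (z : ℂ) (hh : AnalyticAt ℂ h z) :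
    iteratedDeriv 2 (fun t : ℝ => (h (z + t)).re) 0 + iteratedDeriv 2 (fun t : ℝ => (h (z + t * I)).re) 0 = 0 := by
  have hd : ∀ᶠ w in 𝓝 z, HasDerivAt h (deriv h w) w :=
    hh.eventually_analyticAt.mono fun w hw => hw.differentiableAt.hasDerivAt
  have hd2 : HasDerivAt (deriv h) (deriv (deriv h) z) z := hh.deriv.differentiableAt.hasDerivAt
  -- general direction
  have key : ∀ v : ℂ, iteratedDeriv 2 (fun t : ℝ => (h (z + t * v)).re) 0 =
      (deriv (deriv h) z * v * v).re := by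
    intro v
    have hl : ∀ t : ℝ, HasDerivAt (fun t : ℝ => z + (t : ℂ) * v) v t := by
      intro t
      have h1 : HasDerivAt (fun t : ℝ => (t : ℂ)) 1 t := Complex.ofRealCLM.hasDerivAt
      have h2 := (h1.mul_const v).const_add z
      simpa using h2
    have hc : ContinuousAt (fun t : ℝ => z + (t : ℂ) * v) 0 := (hl 0).continuousAt
    have h0 : z + ((0 : ℝ) : ℂ) * v = z := by simp
    refine RA_it2 (F1 := fun t => (deriv h (z + t * v) * v).re) ?_ ?_
    · have h1 : ∀ᶠ t : ℝ in 𝓝 0, HasDerivAt h (deriv h (z + t * v)) (z + t * v) := by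
        refine hc.tendsto.eventually (p := fun w => HasDerivAt h (deriv h w) w) ?_
        change ∀ᶠ w in 𝓝 (z + ((0 : ℝ) : ℂ) * v), HasDerivAt h (deriv h w) w
        rw [h0]
        exact hd
      filter_upwards [h1] with t ht
      have h2 : HasDerivAt (fun t : ℝ => h (z + t * v)) (deriv h (z + t * v) * v) t :=
        HasDerivAt.comp_of_eq t ht (hl t) rfl
      exact (Complex.reCLM.hasFDerivAt.comp_hasDerivAt t h2)
    · have h1 : HasDerivAt (deriv h) (deriv (deriv h) z) (z + ((0 : ℝ) : ℂ) * v) := by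
        rw [h0]; exact hd2
      have h2 : HasDerivAt (fun t : ℝ => deriv h (z + t * v)) (deriv (deriv h) z * v) 0 :=
        HasDerivAt.comp_of_eq 0 h1 (hl 0) rfl
      have h3 := h2.mul_const v
      exact (Complex.reCLM.hasFDerivAt.comp_hasDerivAt 0 h3)
  have k1 := key 1
  have k2 := key I
  simp only [mul_one] at k1
  rw [k1, k2, mul_assoc, I_mul_I]
  simp

theorem RA : RA_stmt := by
  refine ⟨?_, ?_⟩
  · intro g c z hz hg
    have ha : z - c ≠ 0 := sub_ne_zero.2 hz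
    refine ⟨?_, ?_⟩
    · have h1 : ContDiffAt ℝ 2 (fun w : ℂ => ‖w - c‖) z := by
        have h2 : ContDiffAt ℝ 2 (fun w : ℂ => w - c) z := by fun_prop
        exact h2.norm ℝ ha
      exact ContDiffAt.comp z hg h1
    · set a := z - c with had
      have hpos : 0 < a.re ^ 2 + a.im ^ 2 := by
        have := Complex.normSq_pos.2 ha
        rw [Complex.normSq_apply] at this
        nlinarith
      have hpos' : 0 < a.im ^ 2 + a.re ^ 2 := by linarith
      have hn : ‖a‖ = Real.sqrt (a.re ^ 2 + a.im ^ 2) := by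
        have := RA_norm_re a 0
        simpa using this
      have hn' : ‖a‖ = Real.sqrt (a.im ^ 2 + a.re ^ 2) := by rw [hn, add_comm]
      unfold lap
      have e1 : (fun t : ℝ => g ‖z + (t : ℂ) - c‖) =
          fun t : ℝ => g (Real.sqrt ((a.re + t) ^ 2 + a.im ^ 2)) := by
        funext t
        rw [← RA_norm_re, had]
        congr 2
        ring
      have e2 : (fun t : ℝ => g ‖z + (t : ℂ) * I - c‖) =
          fun t : ℝ => g (Real.sqrt ((a.im + t) ^ 2 + a.re ^ 2)) := by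
        funext t
        rw [← RA_norm_im, had]
        congr 2
        ring
      rw [e1, e2, RA_rad g a.re a.im hpos (by rw [← hn]; exact hg),
        RA_rad g a.im a.re hpos' (by rw [← hn']; exact hg), ← hn, ← hn']
      have h5 : ‖a‖ ≠ 0 := norm_ne_zero_iff.2 ha
      have h6 : a.re ^ 2 + a.im ^ 2 ≠ 0 := hpos.ne'
      rw [add_comm (a.im ^ 2) (a.re ^ 2)]
      congr 1
      field_simp
      ring
  · intro f z hf hfz
    have hnorm : ContDiffAt ℝ 2 (fun w => ‖f w‖) z := by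
      have h1 : ContDiffAt ℝ 2 f z := (hf.contDiffAt (n := 2)).restrict_scalars ℝ
      exact h1.norm ℝ hfz
    refine ⟨hnorm.log (norm_ne_zero_iff.2 hfz), ?_⟩
    set h : ℂ → ℂ := fun w => Complex.log (f w / f z) with hh
    have han : AnalyticAt ℂ h z := by
      apply AnalyticAt.clog
      · exact hf.div analyticAt_const hfz
      · simp [div_self hfz]
    have hev : ∀ᶠ w in 𝓝 z, Real.log ‖f w‖ = Real.log ‖f z‖ + (h w).re := by
      have h1 : ∀ᶠ w in 𝓝 z, f w ≠ 0 := hf.continuousAt.eventually_ne hfz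
      filter_upwards [h1] with w hw
      rw [hh]
      simp only
      rw [Complex.log_re, norm_div, Real.log_div (norm_ne_zero_iff.2 hw) (norm_ne_zero_iff.2 hfz)]
      ring
    have h3 := RA_harm h z han
    unfold lap
    have gen : ∀ v : ℂ, iteratedDeriv 2 (fun t : ℝ => Real.log ‖f (z + t * v)‖) 0 =
        iteratedDeriv 2 (fun t : ℝ => (h (z + t * v)).re) 0 := by
      intro v
      have hc : ContinuousAt (fun t : ℝ => z + (t : ℂ) * v) 0 := by fun_prop
      have h0 : z + ((0 : ℝ) : ℂ) * v = z := by simp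
      have h4 : (fun t : ℝ => Real.log ‖f (z + t * v)‖) =ᶠ[𝓝 0]
          fun t : ℝ => Real.log ‖f z‖ + (h (z + t * v)).re := by
        have : ∀ᶠ t : ℝ in 𝓝 0, Real.log ‖f (z + t * v)‖ = Real.log ‖f z‖ + (h (z + t * v)).re := by
          refine hc.tendsto.eventually (p := fun w => Real.log ‖f w‖ = Real.log ‖f z‖ + (h w).re) ?_
          change ∀ᶠ w in 𝓝 (z + ((0 : ℝ) : ℂ) * v), Real.log ‖f w‖ = Real.log ‖f z‖ + (h w).re
          rw [h0]
          exact hev
        exact this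
      rw [iteratedDeriv_succ, iteratedDeriv_one, iteratedDeriv_succ, iteratedDeriv_one]
      have h5 : deriv (fun t : ℝ => Real.log ‖f (z + t * v)‖) =ᶠ[𝓝 0]
          deriv (fun t : ℝ => Real.log ‖f z‖ + (h (z + t * v)).re) := h4.deriv
      rw [h5.deriv_eq]
      congr 1
      funext t
      rw [deriv_const_add]
    have g1 := gen 1
    have g2 := gen I
    simp only [mul_one] at g1
    rw [g1, g2, h3, zero_div]

end Pool.Agent.DL
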